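import Mathlib
import Pool.Agent.MP_23af5d_nt.Link

/-!
The median inequality for the deconvolved sum-of-digits measures, in every base `q ≥ 2`.
For `q = 2` the two hypotheses on `P` read `P 1 = δ₀`, `P (2 n) = P n` and
`P (2 n + 1) d = P n (d - 1) / 2 + P (n + 1) (d + 1) / 2`.
-/

namespace Pool.Agent.Results.MP_23af5d_nt.AllBases

open Filter Topology Pool.Agent.MP_23af5d_nt

theorem toRec {k : ℕ} {P : ℕ → ℤ → ℝ}
    (hbase : ∀ r : ℕ, 1 ≤ r → r < k + 1 → ∀ d : ℤ, P r d =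
      (if d = r - 1 then (((k + 1 : ℕ) : ℝ) - r) / ((k + 1 : ℕ) - 1) else 0) +
        if d = r - (k + 1 : ℕ) then ((r : ℝ) - 1) / ((k + 1 : ℕ) - 1) else 0)
    (hrec : ∀ n r : ℕ, 1 ≤ n → r < k + 1 → ∀ d : ℤ, P ((k + 1) * n + r) d =
      (((k + 1 : ℕ) : ℝ) - r) / (k + 1 : ℕ) * P n (d - r) +
        (r : ℝ) / (k + 1 : ℕ) * P (n + 1) (d - r + (k + 1 : ℕ))) : Rec k P := by
  refine ⟨fun r h1 h2 d => ?_, fun n r h1 h2 d => ?_⟩
  · have := hbase r h1 (by omega) d
    push_cast at this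
    rwa [add_sub_cancel_right] at this
  · have := hrec n r h1 (by omega) d
    push_cast at this
    exact this

/-- Sanity check, not part of the result: the two hypotheses of `result` have a solution. -/
theorem exists_solution (q : ℕ) (hq : 2 ≤ q) : ∃ P : ℕ → ℤ → ℝ,
    (∀ r : ℕ, 1 ≤ r → r < q → ∀ d : ℤ, P r d =
      (if d = r - 1 then ((q : ℝ) - r) / (q - 1) else 0) +
        if d = r - q then ((r : ℝ) - 1) / (q - 1) else 0) ∧
    ∀ n r : ℕ, 1 ≤ n → r < q → ∀ d : ℤ, P (q * n + r) d =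
      ((q : ℝ) - r) / q * P n (d - r) + (r : ℝ) / q * P (n + 1) (d - r + q) := by
  obtain ⟨k, rfl⟩ : ∃ k, q = k + 1 := ⟨q - 1, by omega⟩
  have h := sol_rec (k := k) (by omega)
  refine ⟨sol k, fun r h1 h2 d => ?_, fun n r h1 h2 d => ?_⟩
  · push_cast
    rw [add_sub_cancel_right]
    exact h.base r h1 (by omega) d
  · push_cast
    exact h.step n r h1 (by omega) d

/-- Meaning of `P`, not part of the result: the densities `μ t d` of the sets of `n` with
`s (n + t) - s n = d`, `s` the sum of the digits in base `q`, exist and `μ t = μ 1 * P t`. -/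
theorem link (q : ℕ) (hq : 2 ≤ q) (P : ℕ → ℤ → ℝ)
    (hbase : ∀ r : ℕ, 1 ≤ r → r < q → ∀ d : ℤ, P r d =
      (if d = r - 1 then ((q : ℝ) - r) / (q - 1) else 0) +
        if d = r - q then ((r : ℝ) - 1) / (q - 1) else 0)
    (hrec : ∀ n r : ℕ, 1 ≤ n → r < q → ∀ d : ℤ, P (q * n + r) d =
      ((q : ℝ) - r) / q * P n (d - r) + (r : ℝ) / q * P (n + 1) (d - r + q)) :
    ∃ μ : ℕ → ℤ → ℝ, ∀ t : ℕ, 1 ≤ t → ∀ d : ℤ,
      Tendsto (fun N : ℕ => (((Finset.range N).filter fun n =>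
        (((Nat.digits q (n + t)).sum : ℕ) : ℤ) - ((Nat.digits q n).sum : ℕ) = d).card : ℝ) / N)
        atTop (𝓝 (μ t d)) ∧
      HasSum (fun e : ℤ => P t e * μ 1 (d - e)) (μ t d) := by
  obtain ⟨k, rfl⟩ : ∃ k, q = k + 1 := ⟨q - 1, by omega⟩
  have h := toRec hbase hrec
  choose ν hν using avg_one (q := k + 1) (by omega)
  choose! μ h1 h2 using h.link (by omega) hν
  have e : μ 1 = ν := funext fun d => tendsto_nhds_unique (h2 1 le_rfl d) (hν d)
  refine ⟨μ, fun t ht d => ⟨?_, e ▸ h1 t ht d⟩⟩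
  have := h2 t ht d
  refine this.congr fun N => ?_
  rw [Finset.card_filter, Nat.cast_sum]
  refine congrArg (· / (N : ℝ)) (Finset.sum_congr rfl fun n _ => ?_)
  simp only [ind, ds, Nat.cast_ite, Nat.cast_one, Nat.cast_zero]
  exact if_congr Iff.rfl rfl rfl

/-- For every base `q ≥ 2` and every `t ≥ 1` the measure `P t` gives mass at least `1 / 2` to the
integers above `-(q - 1)` and mass at least `1 / 2` to the integers below `q - 1`. -/
theorem result (q : ℕ) (hq : 2 ≤ q) (P : ℕ → ℤ → ℝ)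
    (hbase : ∀ r : ℕ, 1 ≤ r → r < q → ∀ d : ℤ, P r d =
      (if d = r - 1 then ((q : ℝ) - r) / (q - 1) else 0) +
        if d = r - q then ((r : ℝ) - 1) / (q - 1) else 0)
    (hrec : ∀ n r : ℕ, 1 ≤ n → r < q → ∀ d : ℤ, P (q * n + r) d =
      ((q : ℝ) - r) / q * P n (d - r) + (r : ℝ) / q * P (n + 1) (d - r + q))
    (t : ℕ) (ht : 1 ≤ t) :
    1 / 2 ≤ ∑' d : Set.Ioi (1 - (q : ℤ)), P t d ∧ 1 / 2 ≤ ∑' d : Set.Iio ((q : ℤ) - 1), P t d := by
  obtain ⟨k, rfl⟩ : ∃ k, q = k + 1 := ⟨q - 1, by omega⟩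
  have h := toRec hbase hrec
  obtain ⟨S, hS, e⟩ := h.upper (by omega) t ht
  obtain ⟨S', hS', e'⟩ := h.lower (by omega) t ht
  constructor
  · rw [tsum_subtype, (hS.congr_fun fun x => ?_).tsum_eq]
    · exact e
    · simp only [Set.indicator, Set.mem_Ioi]
      exact if_congr (by push_cast; omega) rfl rfl
  · rw [tsum_subtype, (hS'.congr_fun fun x => ?_).tsum_eq]
    · exact e'
    · simp only [Set.indicator, Set.mem_Iio]
      exact if_congr (by push_cast; omega) rfl rfl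

end Pool.Agent.Results.MP_23af5d_nt.AllBases
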