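import Mathlib
import Pool.Agent.MP_23af5d_nt.CountDens

/-!
Adding `t` and counting the base `q` digits that lie in a set `A`: the change of the count has
median zero.
-/

namespace Pool.Agent.Results.MP_23af5d_nt.DigitMedian

open Filter Topology Finset Pool.Agent.MP_23af5d_nt Pool.Agent.MP_23af5d_nt.DC

/-- Let `c n` be the number of base `q` digits of `n` lying in `A`. Assume that `A` contains both
or neither of the digits `0` and `q - 1`, or that for all `j` the `j` largest digits contain at
least as many elements of `A` as the `j` smallest, or at most as many for all `j`. Then the sets of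
`n` with `c n ≤ c (n + t)` and with `c (n + t) ≤ c n` have densities at least `1 / 2`. -/
theorem result (q : ℕ) (hq : 2 ≤ q) (A : Finset ℕ)
    (hA : (0 ∈ A ↔ q - 1 ∈ A) ∨
      (∀ j ≤ q, (A ∩ range j).card ≤ (A ∩ Ico (q - j) q).card) ∨
      (∀ j ≤ q, (A ∩ Ico (q - j) q).card ≤ (A ∩ range j).card))
    (t : ℕ) : ∃ δ₁ δ₂ : ℝ, 1 / 2 ≤ δ₁ ∧ 1 / 2 ≤ δ₂ ∧
    Tendsto (fun N : ℕ => (((range N).filter fun n =>
      (Nat.digits q n).countP (· ∈ A) ≤ (Nat.digits q (n + t)).countP (· ∈ A)).card : ℝ) / N)
      atTop (𝓝 δ₁) ∧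
    Tendsto (fun N : ℕ => (((range N).filter fun n =>
      (Nat.digits q (n + t)).countP (· ∈ A) ≤ (Nat.digits q n).countP (· ∈ A)).card : ℝ) / N)
      atTop (𝓝 δ₂) := by
  have h := fun k => half_all (v := fun b => if b ∈ A then 1 else 0) (q := q)
    (fun b => by split_ifs <;> simp) (by omega) (by
      rcases hA with h | h | h
      · exact Or.inl (if_congr h rfl rfl)
      · refine Or.inr (Or.inl fun i j e => ?_)
        have : ((A ∩ range j).card : ℝ) ≤ (A ∩ Ico (q - j) q).card := by
          exact_mod_cast h j (by omega)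
        rw [C_card, C_card, C_card, card_top A e]
        linarith
      · refine Or.inr (Or.inr fun i j e => ?_)
        have : ((A ∩ Ico (q - j) q).card : ℝ) ≤ (A ∩ range j).card := by
          exact_mod_cast h j (by omega)
        rw [C_card, C_card, C_card, card_top A e]
        linarith) k t
  obtain ⟨δ₁, a1, b1⟩ := dens (v := fun b => if b ∈ A then 1 else 0) hq (count_step A hq) t
    psiP_mem (c := 1 / 2) (k₀ := 0) fun k _ => by linarith [(h k).1]
  obtain ⟨δ₂, a2, b2⟩ := dens (v := fun b => if b ∈ A then 1 else 0) hq (count_step A hq) t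
    psiM_mem (c := 1 / 2) (k₀ := 0) fun k _ => by linarith [(h k).2]
  exact ⟨δ₁, δ₂, b1, b2, avg_ge a1, avg_le a2⟩

end Pool.Agent.Results.MP_23af5d_nt.DigitMedian
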