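import Mathlib
import Pool.Agent.MP_23af5d_nt.CountDens

/-!
Cusick's inequality, strict and with an explicit margin, for counts of base `q` digits in a strictly
top-heavy set. The case `q = 2`, `A = {1}` is the binary sum of digits.
-/

namespace Pool.Agent.Results.MP_23af5d_nt.DigitStrict

open Filter Topology Finset Pool.Agent.MP_23af5d_nt Pool.Agent.MP_23af5d_nt.DC

/-- Let `c n` be the number of base `q` digits of `n` lying in `A`. Assume that for `0 < j < q` the
`j` largest digits contain more elements of `A` than the `j` smallest. If `t < q ^ l`, the set of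
`n` with `c n ≤ c (n + t)` has a density at least `1 / 2 + 1 / (2 q ^ (2 l + 2))`. -/
theorem result (q : ℕ) (hq : 2 ≤ q) (A : Finset ℕ)
    (hA : ∀ j, 0 < j → j < q → (A ∩ range j).card < (A ∩ Ico (q - j) q).card)
    (t l : ℕ) (ht : t < q ^ l) : ∃ δ : ℝ, 1 / 2 + 1 / (2 * (q : ℝ) ^ (2 * l + 2)) ≤ δ ∧
    Tendsto (fun N : ℕ => (((range N).filter fun n =>
      (Nat.digits q n).countP (· ∈ A) ≤ (Nat.digits q (n + t)).countP (· ∈ A)).card : ℝ) / N)
      atTop (𝓝 δ) := by
  have hv : ∀ b, (if b ∈ A then 1 else 0 : ℤ) = 0 ∨ (if b ∈ A then 1 else 0 : ℤ) = 1 :=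
    fun b => by split_ifs <;> simp
  have hs : Str (fun b => ((if b ∈ A then 1 else 0 : ℤ) : ℝ)) q := fun i j hi hj e => by
    have : ((A ∩ range j).card : ℝ) + 1 ≤ (A ∩ Ico (q - j) q).card := by
      exact_mod_cast hA j hj (by omega)
    rw [C_card, C_card, C_card, card_top A e]
    linarith
  obtain ⟨δ, a, b⟩ := dens (v := fun b => if b ∈ A then 1 else 0) hq (count_step A hq) t
    psiP_mem (more hv hq (hs.hyp (cast01 hv) hq) hs ht)
  exact ⟨δ, b, avg_ge a⟩

end Pool.Agent.Results.MP_23af5d_nt.DigitStrict
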