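import Mathlib
import Pool.Agent.MP_23af5d_nt.TdDigit

/-!
The Tu-Deng inequality for counts of large digits in base `q = a + b`. For `a = b = 1` both counts
are the binary sum of digits.
-/

namespace Pool.Agent.Results.MP_23af5d_nt.TuDeng

open Finset Pool.Agent.MP_23af5d_nt.DC Pool.Agent.MP_23af5d_nt.TD

/-- Let `q = a + b` with `a, b ≥ 1` and `k ≥ 1`. At most `q ^ k / 2` pairs `(x, y)` of residues
`0 ≤ x, y < q ^ k - 1` have `x + y ≡ t` modulo `q ^ k - 1` and fewer than `k` as the number of base
`q` digits of `x` that are at least `a` plus the number of digits of `y` that are at least `b`. -/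
theorem result (q a b k t : ℕ) (hq : a + b = q) (ha : 1 ≤ a) (hb : 1 ≤ b) (hk : 1 ≤ k) :
    2 * ((range (q ^ k - 1) ×ˢ range (q ^ k - 1)).filter fun p : ℕ × ℕ =>
      p.1 + p.2 ≡ t [MOD q ^ k - 1] ∧
        (Nat.digits q p.1).countP (a ≤ ·) + (Nat.digits q p.2).countP (b ≤ ·) < k).card ≤
      q ^ k := by
  subst hq
  obtain ⟨M, hM⟩ : ∃ M, (a + b) ^ k = M + 1 :=
    ⟨(a + b) ^ k - 1, by have : 0 < (a + b) ^ k := by positivity
                         omega⟩
  have hM0 : 0 < M := by
    have := Nat.one_lt_pow (n := k) (a := a + b) (by omega) (by omega)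
    omega
  have ht : t % M < M := Nat.mod_lt _ hM0
  have h := closed_half (v := fun d => if a ≤ d then 1 else 0) (q := a + b) (k := k) (t := t % M)
    (fun d => by split_ifs <;> simp) (fun x y hxy => by
      dsimp only
      split_ifs <;> first | omega | norm_num) (by omega) (if_neg (by omega)) (if_pos (by omega))
    (by omega)
  rw [F, F, ← sum_add_distrib] at h
  set S := (range ((a + b) ^ k - 1) ×ˢ range ((a + b) ^ k - 1)).filter fun p : ℕ × ℕ =>
      p.1 + p.2 ≡ t [MOD (a + b) ^ k - 1] ∧ (Nat.digits (a + b) p.1).countP (a ≤ ·) +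
        (Nat.digits (a + b) p.2).countP (b ≤ ·) < k with hS
  have hmem : ∀ p ∈ S, p.1 < M ∧ p.2 < M ∧ p.1 + p.2 ≡ t [MOD M] ∧
      (Nat.digits (a + b) p.1).countP (a ≤ ·) + (Nat.digits (a + b) p.2).countP (b ≤ ·) < k := by
    intro p hp
    simpa only [hS, mem_filter, mem_product, mem_range, hM, Nat.add_sub_cancel, and_assoc] using hp
  have hinj : Set.InjOn (fun p : ℕ × ℕ => M - p.2) S := by
    intro p hp p' hp' e
    obtain ⟨a1, a2, a3, -⟩ := hmem p hp
    obtain ⟨b1, b2, b3, -⟩ := hmem p' hp'
    have e2 : p.2 = p'.2 := by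
      dsimp only at e
      omega
    rw [e2] at a3
    exact Prod.ext (Nat.ModEq.eq_of_lt_of_lt
      (Nat.ModEq.add_right_cancel' _ (a3.trans b3.symm)) a1 b1) e2
  have key : (S.card : ℝ) ≤ ((a + b : ℕ) : ℝ) ^ k / 2 := by
    refine le_trans ?_ ((sum_le_sum_of_subset_of_nonneg (s := S.image fun p => M - p.2)
      (fun n hn => ?_) fun n _ _ => ?_).trans h)
    · rw [sum_image hinj, card_eq_sum_ones, Nat.cast_sum]
      refine sum_le_sum fun p hp => ?_
      obtain ⟨a1, a2, a3, a4⟩ := hmem p hp
      have c1 := count_Wt ha (show 1 < a + b by omega) k p.1 (by omega)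
      have c2 := count_Wt hb (show 1 < a + b by omega) k p.2 (by omega)
      have c3 := Wt_compl (a := a) (b := b) k (M - p.2) p.2 (by omega)
      have c4 : p.1 ≡ M - p.2 + t % M [MOD M] := by
        refine Nat.ModEq.add_right_cancel' p.2 (a3.trans ?_)
        rw [show M - p.2 + t % M + p.2 = t % M + M by omega]
        exact ((Nat.add_modEq_right).trans (Nat.mod_modEq t M)).symm
      have c5 : 0 + (Wt (fun d => if a ≤ d then 1 else 0) (a + b) k p.1 -
          Wt (fun d => if a ≤ d then 1 else 0) (a + b) k (M - p.2)) < 0 := by omega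
      simp only [ng_eq, Nat.cast_one]
      by_cases hc : M - p.2 + t % M < M
      · have e := c4.eq_of_lt_of_lt a1 hc
        rw [← e, Nat.div_eq_of_lt (show p.1 < (a + b) ^ k by omega), if_pos rfl, if_pos c5]
        split_ifs <;> norm_num
      · have e : p.1 = M - p.2 + t % M - M := by
          refine Nat.ModEq.eq_of_lt_of_lt (c4.trans ?_) a1 (by omega)
          conv_lhs => rw [show M - p.2 + t % M = M - p.2 + t % M - M + M by omega]
          exact Nat.add_modEq_right
        rw [show M - p.2 + (t % M + 1) = (a + b) ^ k * 1 + p.1 by omega, Wt_period _ (by omega),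
          Nat.mul_add_div (by omega), Nat.div_eq_of_lt (show p.1 < (a + b) ^ k by omega),
          if_pos (show 1 + 0 = 1 from rfl), if_pos c5]
        split_ifs <;> norm_num
    · obtain ⟨p, -, rfl⟩ := mem_image.1 hn
      exact mem_range.2 (by omega)
    · simp only [ng_eq]
      split_ifs <;> norm_num
  have : ((2 * S.card : ℕ) : ℝ) ≤ (((a + b) ^ k : ℕ) : ℝ) := by
    rw [Nat.cast_mul, Nat.cast_pow]
    push_cast at key ⊢
    linarith
  exact_mod_cast this

end Pool.Agent.Results.MP_23af5d_nt.TuDeng
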